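import Pool.Agent.U735.SO.Cls

/-!
# Project SO, package DEV: devissage
-/

set_option autoImplicit false
set_option linter.unusedSectionVars false
set_option backward.isDefEq.respectTransparency false
set_option backward.defeqAttrib.useBackward true

open CategoryTheory Limits MonoidalCategory Pretriangulated Triangulated TensorProduct

namespace Pool.Agent.U606.SO

open Pool.Agent.Y116.MT Pool.Agent.V1178.MT Pool.Agent.U735.IL Pool.Agent.U735.SO

universe v u v₀ u₀ w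

section

variable {C : Type u} [Category.{v} C] [Preadditive C] [HasZeroObject C] [HasShift C ℤ]
  [∀ n : ℤ, (shiftFunctor C n).Additive] [Pretriangulated C] [MonoidalCategory C]
  [SymmetricCategory C] [TensorTriangulated C] {E : Type w} [Field E]
  {Γ : Type*} [Group Γ] {R : Realisation C E} {a : GalAct Γ R} {Chow : ObjectProperty C}

/-- Exactness of the cohomology sequence. -/
lemma exact_mid {X Y Z : C} {f : X ⟶ Y} {g : Y ⟶ Z} {h : Z ⟶ X⟦(1 : ℤ)⟧}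
    (hT : Triangle.mk f g h ∈ distTriang C) (n : ℤ) (y : R.H.obj (Y⟦n⟧))
    (hy : hm R (g⟦n⟧') y = 0) : ∃ x, hm R (f⟦n⟧') x = y := by
  let _ := Functor.ShiftSequence.tautological R.H ℤ
  have hex := (R.H.homologySequence_exact₂ _ hT n).moduleCat_range_eq_ker
  have h1 : y ∈ LinearMap.range (hm R (f⟦n⟧')) := by
    have h2 : y ∈ LinearMap.ker (hm R (g⟦n⟧')) := hy
    exact hex.symm ▸ h2
  exact h1

/-- Every equivariant map from a stable subspace of a cohomology group of `X` to `H(M)` is zero. -/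
def Good (a : GalAct Γ R) (M X : C) : Prop :=
  ∀ (n : ℤ) (U : Submodule E (R.H.obj (X⟦n⟧))) (hU : a.Stable (X⟦n⟧) U)
    (φ : U →ₗ[E] R.H.obj M),
    (∀ (g : Γ) (x : R.H.obj (X⟦n⟧)) (hx : x ∈ U), φ ⟨a.ap g _ x, hU g x hx⟩ = a.ap g M (φ ⟨x, hx⟩)) →
    φ = 0

lemma good_chow (hss : ∀ (P : C) (n : ℤ), Chow P → a.Semisimple (P⟦n⟧)) {M : C}
    (h0 : ∀ (P : C) (n : ℤ) (φ : R.H.obj (P⟦n⟧) →ₗ[E] R.H.obj M), Chow P → Eqv a _ _ φ → φ = 0)
    (P : C) (hP : Chow P) (m : ℤ) : Good a M (P⟦m⟧) := by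
  intro n U hU φ hφ
  let e : P⟦m + n⟧ ≅ (P⟦m⟧)⟦n⟧ := (shiftFunctorAdd C m n).app P
  have hs : a.Semisimple ((P⟦m⟧)⟦n⟧) := (hss P (m + n) hP).iso e
  obtain ⟨U', hU', hc⟩ := hs U hU
  have key : ∀ x : R.H.obj ((P⟦m⟧)⟦n⟧), ∃ y ∈ U, ∃ z ∈ U', y + z = x := by
    intro x
    have h1 : x ∈ U ⊔ U' := by
      rw [hc.sup_eq_top]
      trivial
    exact Submodule.mem_sup.1 h1
  let ψ : R.H.obj ((P⟦m⟧)⟦n⟧) →ₗ[E] R.H.obj M := LinearMap.ofIsCompl hc φ 0
  have hψU : ∀ y (hy : y ∈ U), ψ y = φ ⟨y, hy⟩ := fun y hy =>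
    LinearMap.ofIsCompl_apply_left hc ⟨y, hy⟩
  have hψU' : ∀ z (hz : z ∈ U'), ψ z = 0 := fun z hz =>
    LinearMap.ofIsCompl_apply_right hc ⟨z, hz⟩
  have hψ : Eqv a _ _ ψ := by
    intro g x
    obtain ⟨y, hy, z, hz, rfl⟩ := key x
    rw [map_add, map_add, map_add, hψU _ (hU g y hy), hψU' _ (hU' g z hz), hφ g y hy, hψU y hy,
      hψU' z hz, add_zero, add_zero]
  have h1 : ψ ∘ₗ hm R e.hom = 0 := by
    refine h0 P (m + n) _ hP ?_
    intro g x
    rw [LinearMap.comp_apply, LinearMap.comp_apply, ← ap_hm, hψ]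
  ext x
  have h2 := LinearMap.congr_fun h1 (hm R e.inv x.1)
  rw [LinearMap.comp_apply, hm_inv_hom] at h2
  rw [← hψU x.1 x.2, h2]
  rfl

lemma good_ext {M X Y Z : C} {f : X ⟶ Y} {g : Y ⟶ Z} {h : Z ⟶ X⟦(1 : ℤ)⟧}
    (hT : Triangle.mk f g h ∈ distTriang C) (hX : Good a M X) (hZ : Good a M Z) :
    Good a M Y := by
  intro n U hU φ hφ
  set F := hm R (f⟦n⟧') with hF
  set G := hm R (g⟦n⟧') with hG
  -- the part from `X`
  have h1 : ∀ x (hx : F x ∈ U), φ ⟨F x, hx⟩ = 0 := by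
    let U₁ : Submodule E (R.H.obj (X⟦n⟧)) := U.comap F
    have hU₁ : a.Stable (X⟦n⟧) U₁ := by
      intro s x hx
      change F (a.ap s _ x) ∈ U
      rw [hF, ← ap_hm]
      exact hU s _ hx
    let φ₁ : U₁ →ₗ[E] R.H.obj M := φ ∘ₗ (F.restrict (p := U₁) (q := U) fun x hx => hx)
    have h2 : φ₁ = 0 := by
      refine hX n U₁ hU₁ φ₁ ?_
      intro s x hx
      have h3 := hφ s (F x) hx
      have h4 : F (a.ap s _ x) = a.ap s _ (F x) := by rw [hF, ap_hm]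
      change φ ⟨F (a.ap s _ x), _⟩ = a.ap s M (φ ⟨F x, hx⟩)
      rw [← h3]
      congr 1
      exact Subtype.ext h4
    intro x hx
    exact LinearMap.congr_fun h2 ⟨x, hx⟩
  have hker : ∀ u (hu : u ∈ U), G u = 0 → φ ⟨u, hu⟩ = 0 := by
    intro u hu hGu
    obtain ⟨x, rfl⟩ := exact_mid hT n u hGu
    exact h1 x hu
  -- the part from `Z`
  let U₂ : Submodule E (R.H.obj (Z⟦n⟧)) := U.map G
  have hU₂ : a.Stable (Z⟦n⟧) U₂ := by
    intro s z hz
    obtain ⟨u, hu, rfl⟩ := hz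
    refine ⟨a.ap s _ u, hU s u hu, ?_⟩
    rw [hG, ap_hm]
  let G' : U →ₗ[E] U₂ := G.restrict fun x hx => ⟨x, hx, rfl⟩
  have hG's : Function.Surjective G' := by
    rintro ⟨z, u, hu, rfl⟩
    exact ⟨⟨u, hu⟩, rfl⟩
  obtain ⟨s, hs⟩ := G'.exists_rightInverse_of_surjective (LinearMap.range_eq_top.2 hG's)
  have hfac : ∀ u : U, (φ ∘ₗ s) (G' u) = φ u := by
    intro u
    have h2 : G' (s (G' u) - u) = 0 := by
      rw [map_sub]
      have h3 := LinearMap.congr_fun hs (G' u)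
      rw [LinearMap.comp_apply, LinearMap.id_apply] at h3
      rw [h3, sub_self]
    have h4 : φ (s (G' u) - u) = 0 := by
      refine hker _ (s (G' u) - u).2 ?_
      exact congrArg Subtype.val h2
    rw [map_sub, sub_eq_zero] at h4
    exact h4
  have h5 : φ ∘ₗ s = 0 := by
    refine hZ n U₂ hU₂ (φ ∘ₗ s) ?_
    rintro t z ⟨u, hu, rfl⟩
    have h6 : (⟨a.ap t _ (G u), hU₂ t _ ⟨u, hu, rfl⟩⟩ : U₂) = G' ⟨a.ap t _ u, hU t u hu⟩ := by
      apply Subtype.ext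
      change a.ap t _ (G u) = G (a.ap t _ u)
      rw [hG, ap_hm]
    rw [h6, hfac, hφ]
    congr 1
    exact (hfac ⟨u, hu⟩).symm
  ext u
  rw [← hfac u, h5]
  rfl

theorem t_DEV (hgen : Generates Chow) (hss : ∀ (P : C) (n : ℤ), Chow P → a.Semisimple (P⟦n⟧)) :
    S_DEV Chow a := by
  intro M hM
  by_contra hcon
  have h0 : ∀ (P : C) (n : ℤ) (φ : R.H.obj (P⟦n⟧) →ₗ[E] R.H.obj M), Chow P → Eqv a _ _ φ → φ = 0 := by
    intro P n φ hP hφ
    by_contra hne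
    exact hcon ⟨P, n, φ, hP, hne, hφ⟩
  have hall : ∀ X : C, Good a M X := by
    refine hgen (fun X => Good a M X) (fun P hP m => good_chow hss h0 P hP m) ?_
    intro X Y Z f g h hT hX hZ
    exact good_ext hT hX hZ
  let e : M⟦(0 : ℤ)⟧ ≅ M := (shiftFunctorZero C ℤ).app M
  have h1 := hall M 0 ⊤ (fun _ _ _ => trivial) (hm R e.hom ∘ₗ (⊤ : Submodule E _).subtype) (by
    intro g x hx
    change hm R e.hom (a.ap g _ x) = a.ap g M (hm R e.hom x)
    rw [ap_hm])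
  apply hM
  rw [ModuleCat.isZero_iff_subsingleton]
  refine ⟨fun x y => ?_⟩
  have h2 : ∀ x : R.H.obj M, x = 0 := by
    intro x
    have h3 := LinearMap.congr_fun h1 ⟨hm R e.inv x, trivial⟩
    have h4 : hm R e.hom (hm R e.inv x) = 0 := h3
    rwa [hm_inv_hom] at h4
  rw [h2 x, h2 y]

end

end Pool.Agent.U606.SO
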